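import Pool.Agent.Helper37.Arb.Goals

/-!
# ARB-RFLIP (packet 9452)
-/

set_option autoImplicit false

namespace Pool.Agent.Helper9.Arb

open Pool.Agent.Helper37.Arb Pool.Agent.Helper36.SC Matrix

/-- The flip of a marked diagram. -/
def flipM (M : Marked) : Marked :=
  { V := M.V
    D := ⟨M.D.pos, M.D.underNext, M.D.overNext⟩
    l := M.r
    r := M.l }

theorem split_ite (P Q : Prop) [Decidable P] [Decidable Q] (f : ℝ) :
    f * (if P then 1 else 0) = (if P ∧ ¬ Q then f else 0) + (if P ∧ Q then f else 0) := by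
  by_cases h1 : P <;> by_cases h2 : Q <;> simp [h1, h2]

theorem openMat_apply (M : Marked) (x : ℝ) (w v : M.V) :
    openMat true M x w v = (1 + x) * (if v = w then 1 else 0)
      - (if v = M.D.underNext w ∧ w ≠ M.l then fwd M.D x w else 0)
      - (if w = M.D.overNext v ∧ v ≠ M.r then bwd M.D x w else 0) := by
  unfold openMat
  rw [if_pos rfl, Matrix.add_apply, Matrix.add_apply]
  have h1 : lap M.D x w v = (1 + x) * (if v = w then 1 else 0)
      - fwd M.D x w * (if v = M.D.underNext w then 1 else 0)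
      - bwd M.D x w * (if v = M.D.overNext.symm w then 1 else 0) := rfl
  have h2 : stepU M.D x M.l w v =
      if v = M.D.underNext w ∧ w = M.l then fwd M.D x w else 0 := by
    unfold stepU
    rw [Matrix.single_apply]
    by_cases h : w = M.l
    · subst h
      by_cases h' : v = M.D.underNext M.l
      · rw [if_pos ⟨rfl, h'.symm⟩, if_pos ⟨h', rfl⟩]
      · rw [if_neg (fun hh => h' hh.2.symm), if_neg (fun hh => h' hh.1)]
    · rw [if_neg (fun hh => h hh.1.symm), if_neg (fun hh => h hh.2)]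
  have h3 : stepO M.D x M.r w v =
      if w = M.D.overNext v ∧ v = M.r then bwd M.D x w else 0 := by
    unfold stepO
    rw [Matrix.single_apply]
    by_cases h : v = M.r
    · subst h
      by_cases h' : w = M.D.overNext M.r
      · rw [if_pos ⟨h'.symm, rfl⟩, if_pos ⟨h', rfl⟩, h']
      · rw [if_neg (fun hh => h' hh.1.symm), if_neg (fun hh => h' hh.1)]
    · rw [if_neg (fun hh => h hh.2.symm), if_neg (fun hh => h hh.2)]
  have h4 : (v = M.D.overNext.symm w) ↔ (w = M.D.overNext v) := by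
    rw [Equiv.eq_symm_apply]
    exact eq_comm
  have h5 : bwd M.D x w * (if v = M.D.overNext.symm w then 1 else 0) =
      bwd M.D x w * (if w = M.D.overNext v then 1 else 0) := by
    simp only [h4]
  rw [h1, h2, h3, h5, split_ite (v = M.D.underNext w) (w = M.l),
    split_ite (w = M.D.overNext v) (v = M.r)]
  simp only [ne_eq]
  ring

/-- The two weights at `x⁻¹`. -/
theorem fwd_inv {V : Type} (D : AltDiagram V) {x : ℝ} (hx : 0 < x) (v : V) :
    fwd D x⁻¹ v = x⁻¹ * bwd D x v := by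
  unfold fwd bwd
  split_ifs
  · field_simp
  · ring

theorem bwd_inv {V : Type} (D : AltDiagram V) {x : ℝ} (hx : 0 < x) (v : V) :
    bwd D x⁻¹ v = x⁻¹ * fwd D x v := by
  unfold fwd bwd
  split_ifs
  · ring
  · field_simp

theorem fwd_pos {V : Type} (D : AltDiagram V) {x : ℝ} (hx : 0 < x) (v : V) : 0 < fwd D x v := by
  unfold fwd
  split_ifs
  · norm_num
  · exact hx

theorem bwd_pos {V : Type} (D : AltDiagram V) {x : ℝ} (hx : 0 < x) (v : V) : 0 < bwd D x v := by
  unfold bwd
  split_ifs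
  · exact hx
  · norm_num

theorem fwd_zpow {V : Type} (D : AltDiagram V) {x : ℝ} (v : V) :
    fwd D x v = x ^ (if D.pos v then (0 : ℤ) else 1) := by
  unfold fwd
  split_ifs <;> simp

theorem bwd_zpow {V : Type} (D : AltDiagram V) {x : ℝ} (v : V) :
    bwd D x v = x ^ (1 - (if D.pos v then (0 : ℤ) else 1)) := by
  unfold bwd
  split_ifs <;> simp

/-- The flip at `x⁻¹`. -/
theorem flip_entry (M : Marked) (k : M.V → ℤ) (hk : Index true M k) {x : ℝ} (hx : 0 < x)
    (v w : M.V) :
    openMat true (flipM M) x⁻¹ v w =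
      x⁻¹ * ((x ^ (-k v))⁻¹ * openMat true M x w v * x ^ (-k w)) := by
  have hx' : x ≠ 0 := hx.ne'
  have e1 := openMat_apply (flipM M) x⁻¹ v w
  have e2 : openMat true (flipM M) x⁻¹ v w = (1 + x⁻¹) * (if w = v then 1 else 0)
      - (if w = M.D.overNext v ∧ v ≠ M.r then fwd M.D x⁻¹ v else 0)
      - (if v = M.D.underNext w ∧ w ≠ M.l then bwd M.D x⁻¹ v else 0) := e1
  rw [e2, openMat_apply M x w v]
  have t1 : (1 + x⁻¹) * (if w = v then (1 : ℝ) else 0) =
      x⁻¹ * ((x ^ (-k v))⁻¹ * ((1 + x) * (if v = w then 1 else 0)) * x ^ (-k w)) := by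
    by_cases h : v = w
    · subst h
      rw [if_pos rfl]
      have : x ^ (-k v) ≠ 0 := zpow_ne_zero _ hx'
      field_simp
      ring
    · rw [if_neg (fun hh => h hh.symm), if_neg h]
      ring
  have t2 : (if w = M.D.overNext v ∧ v ≠ M.r then fwd M.D x⁻¹ v else 0) =
      x⁻¹ * ((x ^ (-k v))⁻¹ * (if w = M.D.overNext v ∧ v ≠ M.r then bwd M.D x w else 0) *
        x ^ (-k w)) := by
    by_cases h : w = M.D.overNext v ∧ v ≠ M.r
    · rw [if_pos h, if_pos h, fwd_inv _ hx, bwd_zpow, bwd_zpow, h.1]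
      have := hk.hO v
      rw [← _root_.zpow_neg, mul_assoc, ← zpow_add₀ hx', ← zpow_add₀ hx']
      congr 2
      linarith
    · rw [if_neg h, if_neg h]
      ring
  have t3 : (if v = M.D.underNext w ∧ w ≠ M.l then bwd M.D x⁻¹ v else 0) =
      x⁻¹ * ((x ^ (-k v))⁻¹ * (if v = M.D.underNext w ∧ w ≠ M.l then fwd M.D x w else 0) *
        x ^ (-k w)) := by
    by_cases h : v = M.D.underNext w ∧ w ≠ M.l
    · rw [if_pos h, if_pos h, bwd_inv _ hx, fwd_zpow, fwd_zpow, h.1]
      have := hk.hU w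
      rw [← _root_.zpow_neg, mul_assoc, ← zpow_add₀ hx', ← zpow_add₀ hx']
      congr 2
      linarith
    · rw [if_neg h, if_neg h]
      ring
  rw [t1, t2, t3]
  ring

theorem flip_det (M : Marked) (k : M.V → ℤ) (hk : Index true M k) {x : ℝ} (hx : 0 < x) :
    (openMat true (flipM M) x⁻¹).det = x⁻¹ ^ Fintype.card M.V * (openMat true M x).det := by
  have hx' : x ≠ 0 := hx.ne'
  have h : openMat true (flipM M) x⁻¹ = x⁻¹ • (Matrix.diagonal (fun v => (x ^ (-k v))⁻¹) *
      (openMat true M x)ᵀ * Matrix.diagonal (fun v => x ^ (-k v))) := by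
    ext v w
    rw [flip_entry M k hk hx v w, Matrix.smul_apply, Matrix.mul_diagonal, Matrix.diagonal_mul,
      Matrix.transpose_apply, smul_eq_mul]
  rw [h]
  show (x⁻¹ • (Matrix.diagonal (fun v => (x ^ (-k v))⁻¹) *
      (openMat true M x)ᵀ * Matrix.diagonal (fun v => x ^ (-k v)))).det = _
  rw [Matrix.det_smul, Matrix.det_mul, Matrix.det_mul, Matrix.det_diagonal, Matrix.det_diagonal,
    Matrix.det_transpose, Finset.prod_inv_distrib]
  have : (∏ v, x ^ (-k v)) ≠ 0 := Finset.prod_ne_zero_iff.2 fun v _ => zpow_ne_zero _ hx'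
  field_simp

theorem flip_resp (M : Marked) (j N : ℤ) (L R b : ℝ → ℝ) (k : M.V → ℤ) (hk : Index true M k)
    (hV : Vals L R b)
    (hN : ∀ x, 0 < x → x ^ N * L x⁻¹ = R x ∧ x ^ N * R x⁻¹ = L x ∧ x ^ N * b x⁻¹ = x * b x)
    (hR : Resp2 M j L R b) :
    Resp2 (flipM M) ((Fintype.card M.V : ℤ) - j - N) L R b := by
  intro y hy
  obtain ⟨x, hx, rfl⟩ : ∃ x : ℝ, 0 < x ∧ y = x⁻¹ := ⟨y⁻¹, inv_pos.2 hy, (inv_inv y).symm⟩
  have hx' : x ≠ 0 := hx.ne'
  obtain ⟨hL0, hR0, hb0, hrel⟩ := hV x hx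
  obtain ⟨n1, n2, n3⟩ := hN x hx
  obtain ⟨hdet, hsol⟩ := hR x hx
  have ha0 : 0 < b x + R x := add_pos hb0 hR0
  have hxN : x ^ N ≠ 0 := zpow_ne_zero _ hx'
  have hsum : x ^ N * (b x⁻¹ + R x⁻¹) = b x + R x := by
    rw [mul_add, n2, n3]
    linarith
  -- the index at the marked crossings
  have hkl : k M.l = (if M.D.pos M.l then (0 : ℤ) else 1) := by
    have := hk.hl
    linarith
  have hkr : k M.r = -(if M.D.pos M.r then (0 : ℤ) else 1) := by
    have := hk.hr
    rw [if_pos rfl] at this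
    linarith
  have hωl : (x ^ (-k M.l))⁻¹ = fwd M.D x M.l := by
    rw [← _root_.zpow_neg, fwd_zpow, neg_neg, hkl]
  have hωi : (x ^ (-k (M.D.underNext M.l)))⁻¹ = fwd M.D x (M.D.underNext M.l) := by
    rw [← _root_.zpow_neg, fwd_zpow, neg_neg]
    congr 1
    have := hk.hU M.l
    linarith
  have hωr : (x ^ (-k M.r))⁻¹ * x = bwd M.D x M.r := by
    rw [← _root_.zpow_neg, bwd_zpow, neg_neg, hkr, ← zpow_add_one₀ hx']
    congr 1
    ring
  have hωo : (x ^ (-k (M.D.overNext M.r)))⁻¹ * x = bwd M.D x (M.D.overNext M.r) := by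
    rw [← _root_.zpow_neg, bwd_zpow, neg_neg, ← zpow_add_one₀ hx']
    congr 1
    have := hk.hO M.r
    linarith
  have hdet0 : (openMat true M x).det ≠ 0 := by
    rw [hdet]
    exact mul_ne_zero (zpow_ne_zero _ hx') ha0.ne'
  refine ⟨?_, ?_⟩
  · rw [flip_det M k hk hx, hdet]
    have e : b x⁻¹ + R x⁻¹ = (x ^ N)⁻¹ * (b x + R x) := by
      rw [← hsum]
      field_simp
    rw [e, _root_.inv_zpow, zpow_sub₀ hx', zpow_sub₀ hx', zpow_natCast, inv_pow]
    have h1 : x ^ j ≠ 0 := zpow_ne_zero _ hx'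
    have h2 : x ^ Fintype.card M.V ≠ 0 := pow_ne_zero _ hx'
    field_simp
  · intro s t
    obtain ⟨h₁, s1, s2, s3⟩ := hsol 0 1
    obtain ⟨h₀, r1, r2, r3⟩ := hsol 1 0
    have hu : IsUnit (openMat true M x).det := isUnit_iff_ne_zero.2 hdet0
    obtain ⟨g, hg⟩ : ∃ g : M.V → ℝ, g ᵥ* openMat true M x =
        Pi.single M.r (x * s) + Pi.single (M.D.underNext M.l) t := by
      refine ⟨(Pi.single M.r (x * s) + Pi.single (M.D.underNext M.l) t) ᵥ*
        (openMat true M x)⁻¹, ?_⟩
      rw [Matrix.vecMul_vecMul, Matrix.nonsing_inv_mul _ hu, Matrix.vecMul_one]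
    have dual : ∀ h : M.V → ℝ, g ⬝ᵥ (openMat true M x *ᵥ h) =
        x * s * h M.r + t * h (M.D.underNext M.l) := by
      intro h
      rw [Matrix.dotProduct_mulVec, hg, add_dotProduct, single_dotProduct, single_dotProduct]
    have d1 := dual h₁
    rw [s1, dotProduct_add, dotProduct_single, dotProduct_single] at d1
    have d0 := dual h₀
    rw [r1, dotProduct_add, dotProduct_single, dotProduct_single] at d0
    refine ⟨fun v => (x ^ (-k v))⁻¹ * g v, ?_, ?_, ?_⟩
    · have h1 : ∀ v : M.V, (openMat true (flipM M) x⁻¹ *ᵥ fun v => (x ^ (-k v))⁻¹ * g v) v =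
          x⁻¹ * (x ^ (-k v))⁻¹ * (g ᵥ* openMat true M x) v := by
        intro v
        show ∑ w : M.V, openMat true (flipM M) x⁻¹ v w * ((x ^ (-k w))⁻¹ * g w) =
          x⁻¹ * (x ^ (-k v))⁻¹ * ∑ w : M.V, g w * openMat true M x w v
        rw [Finset.mul_sum]
        refine Finset.sum_congr rfl fun w _ => ?_
        rw [flip_entry M k hk hx v w]
        have : x ^ (-k w) ≠ 0 := zpow_ne_zero _ hx'
        field_simp
      have h2 : ∀ v : M.V, x⁻¹ * (x ^ (-k v))⁻¹ * ((Pi.single M.r (x * s) : M.V → ℝ) v +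
          (Pi.single (M.D.underNext M.l) t : M.V → ℝ) v) =
        (Pi.single M.r (fwd M.D x⁻¹ M.r * s) : M.V → ℝ) v +
          (Pi.single (M.D.underNext M.l) (bwd M.D x⁻¹ (M.D.underNext M.l) * t) : M.V → ℝ) v := by
        intro v
        rw [mul_add]
        congr 1
        · rw [Pi.single_apply, Pi.single_apply]
          by_cases h : v = M.r
          · rw [if_pos h, if_pos h, fwd_inv _ hx, ← hωr, h]
            field_simp
          · rw [if_neg h, if_neg h, mul_zero]
        · rw [Pi.single_apply, Pi.single_apply]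
          by_cases h : v = M.D.underNext M.l
          · rw [if_pos h, if_pos h, bwd_inv _ hx, ← hωi, h]
          · rw [if_neg h, if_neg h, mul_zero]
      funext v
      refine (h1 v).trans ?_
      rw [hg]
      exact h2 v
    · show (b x⁻¹ + R x⁻¹) * ((x ^ (-k (M.D.overNext M.r)))⁻¹ * g (M.D.overNext M.r)) =
        L x⁻¹ * s + x⁻¹ * b x⁻¹ * t
      have e1 : (b x + R x) * ((x ^ (-k (M.D.overNext M.r)))⁻¹ * g (M.D.overNext M.r)) =
          R x * s + b x * t := by
        rw [← hωo] at d1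
        have e2 : (b x + R x) * (x * s * h₁ M.r + t * h₁ (M.D.underNext M.l)) =
            x * (R x * s + b x * t) := by
          linear_combination (x * s) * s3 + t * s2
        rw [← d1] at e2
        have e3 : x * ((b x + R x) * ((x ^ (-k (M.D.overNext M.r)))⁻¹ * g (M.D.overNext M.r))) =
            x * (R x * s + b x * t) := by
          rw [← e2]
          ring
        exact mul_left_cancel₀ hx' e3
      apply mul_left_cancel₀ hxN
      rw [← mul_assoc, hsum, e1]
      have e4 : x ^ N * (L x⁻¹ * s + x⁻¹ * b x⁻¹ * t) =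
          (x ^ N * L x⁻¹) * s + x⁻¹ * (x ^ N * b x⁻¹) * t := by ring
      rw [e4, n1, n3]
      field_simp
    · show (b x⁻¹ + R x⁻¹) * ((x ^ (-k M.l))⁻¹ * g M.l) = b x⁻¹ * s + R x⁻¹ * t
      have e1 : (b x + R x) * ((x ^ (-k M.l))⁻¹ * g M.l) = x * b x * s + L x * t := by
        rw [hωl]
        have e2 : (b x + R x) * (x * s * h₀ M.r + t * h₀ (M.D.underNext M.l)) =
            x * b x * s + L x * t := by
          linear_combination (x * s) * r3 + t * r2
        rw [← d0] at e2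
        rw [← e2]
        ring
      apply mul_left_cancel₀ hxN
      rw [← mul_assoc, hsum, e1]
      have e4 : x ^ N * (b x⁻¹ * s + R x⁻¹ * t) =
          (x ^ N * b x⁻¹) * s + (x ^ N * R x⁻¹) * t := by ring
      rw [e4, n3, n2]

theorem respFlip : GoalRespFlip := by
  intro T j N L R b k hk hV hN hR
  exact ⟨_, flip_resp T.diag j N L R b k hk hV hN hR⟩

end Pool.Agent.Helper9.Arb
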